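import Pool.Agent.Lib.MP_b1a3a4_al.MVS.HO.Iface

/-!
Module KFILL.
-/

set_option linter.all false

namespace Pool.Agent.Lib.MP_b1a3a4_al.MVS.HO.H29

section push

variable {G H : Type} [Group G] [Group H] {E E₁ Z : Set G} {c : G → G → H} {a : G}

lemma inPath_push (hcomm : ∀ x ∈ E₁, a * x = x * a) (hZ : ∀ z ∈ Z, z * a ∈ Z) {u : G}
    {w : List G} (hw : InPath E₁ Z u w) : InPath E₁ Z (u * a) w := by
  induction w generalizing u with
  | nil => exact hZ _ hw
  | cons x w ih =>
    refine ⟨hZ _ hw.1, hw.2.1, ?_⟩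
    have := ih hw.2.2
    rwa [mul_assoc, ← hcomm x hw.2.1, ← mul_assoc] at this

lemma prod_comm' (hcomm : ∀ x ∈ E₁, a * x = x * a) {w : List G} (hw : ∀ x ∈ w, x ∈ E₁) :
    a * w.prod = w.prod * a := by
  induction w with
  | nil => simp
  | cons x w ih =>
    rw [List.prod_cons, ← mul_assoc, hcomm x (hw x (by simp)), mul_assoc,
      ih (fun y hy => hw y (by simp [hy])), mul_assoc]

/-- pushing a path by a commuting element -/
lemma hol_push (hc : Cocyc E Z c) (ha : a ∈ E) (h1 : E₁ ⊆ E) (h2 : ∀ x ∈ E₁, x * a ∈ E)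
    (hcomm : ∀ x ∈ E₁, a * x = x * a) (hZ : ∀ z ∈ Z, z * a ∈ Z) {u : G} {w : List G}
    (hw : InPath E₁ Z u w) :
    hol c u w = c u (u * a) * hol c (u * a) w * (c (u * w.prod) (u * w.prod * a))⁻¹ := by
  induction w generalizing u with
  | nil => simp
  | cons x w ih =>
    have hx := hcomm x hw.2.1
    have hv := hw.2.2.start
    have h3 := hc u hw.1 (u * x) hv (u * x * a) (hZ _ hv) (by simpa using h1 hw.2.1)
      (by rw [inv_mul_cancel_left]; exact ha) (by simpa [mul_assoc] using h2 x hw.2.1)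
    have h4 := hc u hw.1 (u * a) (hZ _ hw.1) (u * x * a) (hZ _ hv) (by simpa using ha)
      (by
        have : (u * a)⁻¹ * (u * x * a) = x := by
          rw [mul_assoc u x a, ← hx, ← mul_assoc u a x]
          group
        rw [this]
        exact h1 hw.2.1)
      (by simpa [mul_assoc] using h2 x hw.2.1)
    have e1 : u * a * x = u * x * a := by rw [mul_assoc, hx, ← mul_assoc]
    rw [hol_cons, ih hw.2.2, hol_cons, List.prod_cons, e1, ← mul_assoc u x w.prod]
    have h5 : c u (u * x) * c (u * x) (u * x * a) = c u (u * a) * c (u * a) (u * x * a) :=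
      h3.trans h4.symm
    calc c u (u * x) * (c (u * x) (u * x * a) * hol c (u * x * a) w *
          (c (u * x * w.prod) (u * x * w.prod * a))⁻¹)
        = (c u (u * x) * c (u * x) (u * x * a)) * hol c (u * x * a) w *
          (c (u * x * w.prod) (u * x * w.prod * a))⁻¹ := by simp only [mul_assoc]
      _ = _ := by
        rw [h5]
        simp only [mul_assoc]

lemma hol_push_iter (hc : Cocyc E Z c) (ha : a ∈ E) (h1 : E₁ ⊆ E) (h2 : ∀ x ∈ E₁, x * a ∈ E)
    (hcomm : ∀ x ∈ E₁, a * x = x * a) (hZ : ∀ z ∈ Z, z * a ∈ Z) (N : ℕ) {u : G} {w : List G}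
    (hw : InPath E₁ Z u w) :
    hol c u w = hol c u (List.replicate N a) * hol c (u * a ^ N) w *
      (hol c (u * w.prod) (List.replicate N a))⁻¹ := by
  induction N generalizing u with
  | zero => simp
  | succ N ih =>
    have hcw := prod_comm' hcomm hw.letters
    have e1 : u * w.prod * a = u * a * w.prod := by rw [mul_assoc, ← hcw, ← mul_assoc]
    rw [hol_push hc ha h1 h2 hcomm hZ hw, ih (inPath_push hcomm hZ hw), List.replicate_succ,
      hol_cons, hol_cons, e1, pow_succ', ← mul_assoc u a (a ^ N)]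
    simp only [mul_assoc, mul_inv_rev]

end push

theorem kfill (hscale : ScaleStatement) (hhigh : HighStatement) : KfillStatement := by
  intro G _ hG χ a ha E₁ hE₁ hcomm
  obtain ⟨E, hBE, hE⟩ := hscale G hG (E₁ ∪ {a}) (hE₁.union (Set.finite_singleton a))
  have hE₁E : E₁ ⊆ E := fun x hx => hBE (Or.inl hx)
  have haE : a ∈ E := hBE (Or.inr rfl)
  refine ⟨E ∪ Set.image2 (· * ·) E E, hE.fin.union (hE.fin.image2 _ hE.fin), ?_⟩
  intro h u w w' hp hw hw' H _ c hc
  obtain ⟨T, hT0, hT⟩ := hhigh G E hE χ {(w, w')} (Set.finite_singleton _) (by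
    rintro ℓ rfl
    exact ⟨fun x hx => hE₁E (hw.letters x hx), fun x hx => hE₁E (hw'.letters x hx), hp⟩)
  obtain ⟨N, hN⟩ := exists_nat_ge (T / val χ a)
  have hN' : T ≤ N * val χ a := (div_le_iff₀ ha).1 hN
  have hZ : ∀ z ∈ up (val χ) h, z * a ∈ up (val χ) h := by
    intro z hz
    rw [mem_up, val_mul]
    rw [mem_up] at hz
    linarith
  have h2 : ∀ x ∈ E₁, x * a ∈ E ∪ Set.image2 (· * ·) E E := fun x hx =>
    Or.inr (Set.mem_image2_of_mem (hE₁E hx) haE)
  have h1 : E₁ ⊆ E ∪ Set.image2 (· * ·) E E := fun x hx => Or.inl (hE₁E hx)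
  rw [hol_push_iter hc (Or.inl haE) h1 h2 hcomm hZ N hw,
    hol_push_iter hc (Or.inl haE) h1 h2 hcomm hZ N hw', hp]
  have h3 : hol c (u * a ^ N) w = hol c (u * a ^ N) w' := by
    refine hT (w, w') rfl h (u * a ^ N) ?_ H c (hc.mono (fun x hx => Or.inl hx) le_rfl)
    have := hw.start
    rw [mem_up] at this
    rw [val_mul, val_pow]
    linarith
  rw [h3]

end Pool.Agent.Lib.MP_b1a3a4_al.MVS.HO.H29
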