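import Pool.Agent.Lib.MP_b1a3a4_al.MVS.HO.Iface

/-!
Module KPATH.
-/

set_option linter.all false

namespace Pool.Agent.Lib.MP_b1a3a4_al.MVS.HO.H29

lemma inPath_map {K G : Type} [Group K] [Group G] (j : K →* G) {E Z : Set K} {E' Z' : Set G}
    (hE : ∀ e ∈ E, j e ∈ E') (hZ : ∀ z ∈ Z, j z ∈ Z') {g : K} {w : List K} (h : InPath E Z g w) :
    InPath E' Z' (j g) (w.map j) := by
  induction w generalizing g with
  | nil => exact hZ g h
  | cons x w ih =>
    refine ⟨hZ g h.1, hE x h.2.1, ?_⟩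
    rw [← map_mul]
    exact ih h.2.2

theorem kpath : KpathStatement := by
  intro K G _ _ j hj χ hcc
  obtain ⟨E, hE, hc⟩ := hcc
  have hmem : ∀ e ∈ E, j e ∈ j '' (E ∪ (fun e => e⁻¹) '' E) := fun e he => ⟨e, Or.inl he, rfl⟩
  refine ⟨j '' (E ∪ (fun e => e⁻¹) '' E), (hE.union (hE.image _)).image _, ?_, ?_, ?_⟩
  · rintro _ ⟨e, -, rfl⟩
    exact ⟨e, rfl⟩
  · rintro _ ⟨e, he, rfl⟩
    refine ⟨e⁻¹, ?_, map_inv _ _⟩
    rcases he with he | ⟨e', he', rfl⟩
    · exact Or.inr ⟨e, he, rfl⟩
    · exact Or.inl (by simpa using he')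
  · rintro _ ⟨k, rfl⟩
    have h1 : (1 : K) ∈ up (val (χ.res j)) 0 := by
      simp [mem_up]
    rcases le_total 0 (val χ (j k)) with h | h
    · have hk : k ∈ up (val (χ.res j)) 0 := by
        rw [mem_up, val_res]
        exact h
      obtain ⟨w, hw, hw'⟩ := (conn_iff h1).1 (hc 1 h1 k hk)
      refine ⟨w.map j, ?_, ?_⟩
      · rw [List.prod_hom, ← hw', one_mul]
      · rw [min_eq_left h]
        have := inPath_map j (E' := j '' (E ∪ (fun e => e⁻¹) '' E)) (Z' := up (val χ) 0) hmem
          (fun z hz => by rw [mem_up, val_res] at hz; exact hz) hw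
        rwa [map_one] at this
    · have hk : k⁻¹ ∈ up (val (χ.res j)) 0 := by
        rw [mem_up, val_inv, val_res]
        linarith
      obtain ⟨w, hw, hw'⟩ := (conn_iff hk).1 (hc _ hk 1 h1)
      have hw'' : w.prod = k := by
        rw [inv_mul_eq_one] at hw'
        exact hw'.symm
      refine ⟨w.map j, ?_, ?_⟩
      · rw [List.prod_hom, hw'']
      · rw [min_eq_right h]
        have h2 := hw.translate k (Z' := up (val (χ.res j)) (val χ (j k))) (fun x hx => by
          rw [mem_up, val_mul, val_res]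
          rw [mem_up] at hx
          linarith)
        rw [mul_inv_cancel] at h2
        have := inPath_map j (E' := j '' (E ∪ (fun e => e⁻¹) '' E))
          (Z' := up (val χ) (val χ (j k))) hmem
          (fun z hz => by rw [mem_up, val_res] at hz; exact hz) h2
        rwa [map_one] at this

end Pool.Agent.Lib.MP_b1a3a4_al.MVS.HO.H29
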