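import Pool.Agent.Lib.MP_b1a3a4_al.MVS.HO.H29.Kfill

/-!
Module TONE.
-/

set_option linter.all false

namespace Pool.Agent.Lib.MP_b1a3a4_al.MVS.HO.H29

section prism

variable {G : Type} [Group G]

@[simp] lemma cj_nil (y : G) : cj y [] = [] := rfl

@[simp] lemma cj_cons (y x : G) (w : List G) : cj y (x :: w) = (y⁻¹ * x * y) :: cj y w := rfl

lemma cj_append (y : G) (w w' : List G) : cj y (w ++ w') = cj y w ++ cj y w' := by
  simp [cj]

lemma cj_rv (y : G) (w : List G) : cj y (rv w) = rv (cj y w) := by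
  induction w with
  | nil => rfl
  | cons x w ih =>
    rw [rv_cons, cj_append, ih, cj_cons, cj_cons, rv_cons, cj_nil]
    congr 2
    group

lemma cj_prod (y : G) (w : List G) : (cj y w).prod = y⁻¹ * w.prod * y := by
  induction w with
  | nil => simp
  | cons x w ih =>
    rw [cj_cons, List.prod_cons, ih, List.prod_cons]
    group

lemma prism {E₂ E₁ Z Z₀ : Set G} {y : G} (hy : y ∈ E₂) (h1 : ∀ e ∈ E₁, e ∈ E₂)
    (h2 : ∀ e ∈ E₁, e * y ∈ E₂) (h3 : ∀ e ∈ E₁, y⁻¹ * e * y ∈ E₂) {v : G} {k : List G}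
    (hk : InPath E₁ Z₀ v k) (hZ : ∀ z ∈ Z₀, z ∈ Z ∧ z * y ∈ Z) :
    SameHol E₂ Z v (k ++ [y]) ([y] ++ cj y k) := by
  intro H _ c hc
  induction k generalizing v with
  | nil => simp
  | cons x k ih =>
    have hv := hZ _ hk.1
    have hvx := hZ _ hk.2.2.start
    have e1 : v * y * (y⁻¹ * x * y) = v * x * y := by group
    have h4 := hc v hv.1 (v * x) hvx.1 (v * x * y) hvx.2
      (by rw [inv_mul_cancel_left]; exact h1 x hk.2.1)
      (by rw [inv_mul_cancel_left]; exact hy)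
      (by rw [mul_assoc, inv_mul_cancel_left]; exact h2 x hk.2.1)
    have h5 := hc v hv.1 (v * y) hv.2 (v * x * y) hvx.2
      (by rw [inv_mul_cancel_left]; exact hy)
      (by rw [← e1, inv_mul_cancel_left]; exact h3 x hk.2.1)
      (by rw [mul_assoc, inv_mul_cancel_left]; exact h2 x hk.2.1)
    have h6 := ih hk.2.2
    simp only [List.cons_append, List.nil_append, hol_cons, cj_cons] at h6 ⊢
    rw [h6, e1, ← mul_assoc, ← mul_assoc, h4, h5]

end prism

theorem tone (hhigh : HighStatement) : ToneStatement := by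
  intro G _ χ E hE E₁ hE₁ hE₁inv
  refine ⟨E ∪ E₁ ∪ Set.image2 (fun e y => e * y) E₁ E ∪
    Set.image2 (fun e y => y⁻¹ * e * y) E₁ E,
    ((hE.fin.union hE₁).union (hE₁.image2 _ hE.fin)).union (hE₁.image2 _ hE.fin), ?_⟩
  set E₂ := E ∪ E₁ ∪ Set.image2 (fun e y => e * y) E₁ E ∪
    Set.image2 (fun e y => y⁻¹ * e * y) E₁ E with hE₂
  have m1 : ∀ e ∈ E, e ∈ E₂ := fun e he => Or.inl (Or.inl (Or.inl he))
  have m2 : ∀ e ∈ E₁, e ∈ E₂ := fun e he => Or.inl (Or.inl (Or.inr he))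
  have m3 : ∀ e ∈ E₁, ∀ y ∈ E, e * y ∈ E₂ := fun e he y hy => Or.inl (Or.inr ⟨e, he, y, hy, rfl⟩)
  have m4 : ∀ e ∈ E₁, ∀ y ∈ E, y⁻¹ * e * y ∈ E₂ := fun e he y hy => Or.inr ⟨e, he, y, hy, rfl⟩
  intro W hW hWE
  have hL : {ℓ : List G × List G | ∃ ω ∈ W, ∃ ω' ∈ W, ∃ y ∈ E, ω'.prod = y⁻¹ * ω.prod * y ∧
      ℓ = (ω ++ [y], [y] ++ ω')}.Finite := by
    refine ((hW.prod (hW.prod hE.fin)).image
      (fun q : List G × List G × G => (q.1 ++ [q.2.2], [q.2.2] ++ q.2.1))).subset ?_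
    rintro ℓ ⟨ω, hω, ω', hω', y, hy, -, rfl⟩
    exact ⟨(ω, ω', y), ⟨hω, hω', hy⟩, rfl⟩
  obtain ⟨T, hT0, hT⟩ := hhigh G E hE χ _ hL (by
    rintro ℓ ⟨ω, hω, ω', hω', y, hy, hp, rfl⟩
    refine ⟨?_, ?_, ?_⟩
    · intro x hx
      simp only [List.mem_append, List.mem_singleton] at hx
      rcases hx with hx | rfl
      · exact hWE ω hω x hx
      · exact hy
    · intro x hx
      simp only [List.mem_append, List.mem_singleton] at hx
      rcases hx with rfl | hx
      · exact hy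
      · exact hWE ω' hω' x hx
    · simp only [List.prod_append, List.prod_singleton]
      rw [hp]
      group)
  refine ⟨T, ?_⟩
  intro h u k ω hω ω' hω' y hy hωω' hcomm hk hTk hu huy huD huDy
  have hDk := prod_comm' hcomm hk.letters
  -- `Z₀`
  have hpath : ∀ z : G, h ≤ val χ z → h ≤ val χ (z * y) →
      InPath E₁ {z | z ∈ up (val χ) h ∧ z * y ∈ up (val χ) h} z k := by
    intro z hz hzy
    have h1 := hk.translate z (Z' := {z | z ∈ up (val χ) h ∧ z * y ∈ up (val χ) h})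
      (fun x hx => by
        rw [mem_up] at hx
        rw [val_mul] at hzy
        refine ⟨?_, ?_⟩
        · rw [mem_up, val_mul]
          linarith
        · rw [mem_up, val_mul, val_mul]
          linarith)
    rwa [mul_one] at h1
  -- step 1
  have hs1 : SameHol E₂ (up (val χ) h) u (k ++ ω ++ (rv k ++ [y]))
      (k ++ ω ++ ([y] ++ rv (cj y k))) := by
    refine SameHol.append_left ?_
    have h1 := (hpath (u * ω.prod) huD huDy).rv hE₁inv
    have e1 : u * (k ++ ω).prod = u * ω.prod * k.prod := by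
      rw [List.prod_append, ← hDk, mul_assoc]
    rw [e1, ← cj_rv]
    exact prism (m1 y hy) m2 (fun e he => m3 e he y hy) (fun e he => m4 e he y hy) h1
      (fun z hz => hz)
  -- step 2
  have hs2 : SameHol E₂ (up (val χ) h) u (k ++ (ω ++ [y]) ++ rv (cj y k))
      (k ++ ([y] ++ ω') ++ rv (cj y k)) := by
    refine SameHol.append_right (SameHol.append_left ?_) ?_
    · refine (hT _ ⟨ω, hω, ω', hω', y, hy, hωω', rfl⟩ h (u * k.prod) ?_).mono m1 le_rfl
      rw [val_mul]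
      linarith
    · simp only [List.prod_append, List.prod_singleton]
      rw [hωω']
      group
  -- step 3
  have hs3 : SameHol E₂ (up (val χ) h) u (k ++ [y] ++ (ω' ++ rv (cj y k)))
      ([y] ++ cj y k ++ (ω' ++ rv (cj y k))) := by
    refine SameHol.append_right ?_ ?_
    · exact prism (m1 y hy) m2 (fun e he => m3 e he y hy) (fun e he => m4 e he y hy)
        (hpath u hu huy) (fun z hz => hz)
    · simp only [List.prod_append, List.prod_singleton, cj_prod]
      group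
  have a1 : k ++ ω ++ rv k ++ [y] = k ++ ω ++ (rv k ++ [y]) := by simp
  have a2 : k ++ ω ++ ([y] ++ rv (cj y k)) = k ++ (ω ++ [y]) ++ rv (cj y k) := by simp
  have a3 : k ++ ([y] ++ ω') ++ rv (cj y k) = k ++ [y] ++ (ω' ++ rv (cj y k)) := by simp
  have a4 : [y] ++ cj y k ++ ω' ++ rv (cj y k) = [y] ++ cj y k ++ (ω' ++ rv (cj y k)) := by simp
  rw [a2] at hs1
  rw [a3] at hs2
  rw [a1, a4]
  exact (hs1.trans hs2).trans hs3

end Pool.Agent.Lib.MP_b1a3a4_al.MVS.HO.H29
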