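import Pool.Agent.Lib.MP_b1a3a4_al.MVS.HO.H29.Kfill

/-!
Module TTWO.
-/

set_option linter.all false

namespace Pool.Agent.Lib.MP_b1a3a4_al.MVS.HO.H29

/-- `m ω m⁻¹ ~ ω`, letter by letter -/
lemma conj_fill {G : Type} [Group G] {E Z V EK : Set G} {ω : List G}
    (hcomm : ∀ e ∈ EK, ω.prod * e = e * ω.prod)
    (hH : ∀ v ∈ V, ∀ e ∈ EK, SameHol E Z v ([e] ++ ω ++ [e⁻¹]) ω) {v : G} {m : List G}
    (hm : InPath EK V v m) : SameHol E Z v (m ++ ω ++ rv m) ω := by
  induction m generalizing v with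
  | nil =>
    simp only [List.nil_append, rv_nil, List.append_nil]
    exact SameHol.rfl'
  | cons e m ih =>
    have h1 := ih hm.2.2
    have hcm := prod_comm' hcomm hm.2.2.letters
    have h2 : SameHol E Z v ([e] ++ (m ++ ω ++ rv m) ++ [e⁻¹]) ([e] ++ ω ++ [e⁻¹]) := by
      refine SameHol.append_right (SameHol.append_left ?_) ?_
      · simpa using h1
      · simp only [List.prod_append, List.prod_singleton, rv_prod]
        rw [← hcm]
        group
    have h3 := hH v hm.1 e hm.2.1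
    have e1 : (e :: m) ++ ω ++ rv (e :: m) = [e] ++ (m ++ ω ++ rv m) ++ [e⁻¹] := by
      rw [rv_cons]
      simp
    rw [e1]
    exact h2.trans h3

theorem ttwo (hkfill : KfillStatement) (hhigh : HighStatement) : TtwoStatement := by
  intro G _ hG χ K a haK ha E hE EK hEK hEKK hpath E₁ hE₁ hEKE₁ hE₁K hE₁inv
  obtain ⟨E₂, hE₂, hfill⟩ := hkfill G hG χ a ha E₁ hE₁ (fun e he => haK e (hE₁K e he))
  refine ⟨E₂ ∪ E, hE₂.union hE.fin, ?_⟩
  intro W hW hWE
  have hL : ((Set.image2 (fun e ω => ([e] ++ ω ++ [e⁻¹], ω)) EK W) ∪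
      {ℓ : List G × List G | ℓ ∈ W ×ˢ W ∧ ℓ.1.prod = ℓ.2.prod}).Finite :=
    ((hE.fin.subset hEK).image2 _ hW).union ((hW.prod hW).subset (fun ℓ hℓ => hℓ.1))
  obtain ⟨T, hT0, hT⟩ := hhigh G E hE χ _ hL (by
    rintro ℓ (⟨e, he, ω, hω, rfl⟩ | ⟨hℓ, hℓ'⟩)
    · refine ⟨?_, (hWE ω hω).1, ?_⟩
      · intro x hx
        simp only [List.mem_append, List.mem_singleton] at hx
        rcases hx with (rfl | hx) | rfl
        · exact hEK he
        · exact (hWE ω hω).1 x hx
        · exact hE.inv _ (hEK he)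
      · simp only [List.prod_append, List.prod_singleton]
        rw [← (hWE ω hω).2 e (hEKK e he)]
        group
    · exact ⟨(hWE _ hℓ.1).1, (hWE _ hℓ.2).1, hℓ'⟩)
  refine ⟨T, ?_⟩
  intro h u k k' ω hω ω' hω' hωω' hk hk' hTk hTk' hu hud
  have hkK : k.prod ∈ K := K.list_prod_mem (fun x hx => hE₁K x (hk.letters x hx))
  have hk'K : k'.prod ∈ K := K.list_prod_mem (fun x hx => hE₁K x (hk'.letters x hx))
  obtain ⟨m, hmprod, hm⟩ := hpath (k.prod⁻¹ * k'.prod) (K.mul_mem (K.inv_mem hkK) hk'K)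
  rw [val_mul, val_inv] at hm
  -- `m` is high
  have hmhigh : ∀ z : G, h ≤ val χ z → InPath EK (up (val χ) (h + T)) (z * k.prod) m := by
    intro z hz
    have h1 := hm.translate (z * k.prod) (Z' := up (val χ) (h + T)) (fun x hx => by
      rw [mem_up] at hx ⊢
      rw [val_mul, val_mul]
      rcases min_le_iff.1 hx with hx | hx <;> linarith)
    rwa [mul_one] at h1
  have hkp : ∀ z : G, h ≤ val χ z → InPath E₁ (up (val χ) h) z k := by
    intro z hz
    have h1 := hk.translate z (Z' := up (val χ) h) (fun x hx => by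
      rw [mem_up] at hx ⊢
      rw [val_mul]
      linarith)
    rwa [mul_one] at h1
  have hkp' : ∀ z : G, h ≤ val χ z → InPath E₁ (up (val χ) h) z k' := by
    intro z hz
    have h1 := hk'.translate z (Z' := up (val χ) h) (fun x hx => by
      rw [mem_up] at hx ⊢
      rw [val_mul]
      linarith)
    rwa [mul_one] at h1
  have hkm : ∀ z : G, h ≤ val χ z → InPath E₁ (up (val χ) h) z (k ++ m) := by
    intro z hz
    rw [inPath_append]
    exact ⟨hkp z hz, (hmhigh z hz).mono hEKE₁ (up_mono (by linarith))⟩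
  have hprod : k'.prod = (k ++ m).prod := by
    rw [List.prod_append, hmprod, mul_inv_cancel_left]
  -- first filling
  have hf1 : SameHol (E₂ ∪ E) (up (val χ) h) u k' (k ++ m) :=
    (hfill h u k' (k ++ m) hprod (hkp' u hu) (hkm u hu)).mono (fun x hx => Or.inl hx) le_rfl
  -- second filling
  have hf2 : SameHol (E₂ ∪ E) (up (val χ) h) (u * ω.prod * k'.prod) (rv k') (rv (k ++ m)) := by
    have h1 := (hkp' _ hud).rv hE₁inv
    have h2 := (hkm _ hud).rv hE₁inv
    rw [← hprod] at h2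
    exact (hfill h _ (rv k') (rv (k ++ m)) (by rw [rv_prod, rv_prod, hprod]) h1 h2).mono
      (fun x hx => Or.inl hx) le_rfl
  have hDcomm := (hWE ω hω).2 k'.prod hk'K
  have hs1 : SameHol (E₂ ∪ E) (up (val χ) h) u (k' ++ ω' ++ rv k')
      (k ++ m ++ ω' ++ rv (k ++ m)) := by
    refine SameHol.congr (hf1.append_right hprod) ?_ ?_
    · rw [List.prod_append, List.prod_append, hprod]
    · have e1 : u * (k' ++ ω').prod = u * ω.prod * k'.prod := by
        rw [List.prod_append, ← hωω', ← hDcomm, mul_assoc]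
      rw [e1]
      exact hf2
  have e2 : k ++ m ++ ω' ++ rv (k ++ m) = k ++ (m ++ ω' ++ rv m) ++ rv k := by
    rw [rv_append]
    simp
  have hconj : SameHol (E₂ ∪ E) (up (val χ) h) (u * k.prod) (m ++ ω' ++ rv m) ω' := by
    refine conj_fill (EK := EK) (V := up (val χ) (h + T))
      (fun e he => (hWE ω' hω').2 e (hEKK e he)) (fun v hv e he => ?_) (hmhigh u hu)
    exact (hT _ (Or.inl ⟨e, he, ω', hω', rfl⟩) h v hv).mono (fun x hx => Or.inr hx) le_rfl
  have hcm : ω'.prod * m.prod = m.prod * ω'.prod := by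
    rw [hmprod]
    exact (hWE ω' hω').2 _ (K.mul_mem (K.inv_mem hkK) hk'K)
  have hs2 : SameHol (E₂ ∪ E) (up (val χ) h) u (k ++ (m ++ ω' ++ rv m) ++ rv k)
      (k ++ ω' ++ rv k) := by
    refine SameHol.append_right (SameHol.append_left hconj) ?_
    simp only [List.prod_append, rv_prod]
    rw [← hcm]
    group
  have hhi : SameHol (E₂ ∪ E) (up (val χ) h) (u * k.prod) ω' ω := by
    refine ((hT (ω', ω) (Or.inr ⟨⟨hω', hω⟩, hωω'.symm⟩) h (u * k.prod) ?_).mono
      (fun x hx => Or.inr hx) le_rfl)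
    rw [val_mul]
    linarith
  have hs3 : SameHol (E₂ ∪ E) (up (val χ) h) u (k ++ ω' ++ rv k) (k ++ ω ++ rv k) := by
    refine SameHol.append_right (SameHol.append_left hhi) ?_
    simp only [List.prod_append]
    rw [hωω']
  rw [e2] at hs1
  exact ((hs1.trans hs2).trans hs3).symm

end Pool.Agent.Lib.MP_b1a3a4_al.MVS.HO.H29
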